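import Mathlib

/-! Hypergraphs all of whose derived graphs are `d`-colourable: sparsity of large traces. -/

namespace Pool.Agent.H.MP_96d021_co
open Finset Classical

variable {V ι : Type} [Fintype V] [Fintype ι] {e : ι → Finset V} {d r : ℕ}

/-- Every choice of pairs inside the edges is separated by a `d`-colouring. -/
def Der (e : ι → Finset V) (d : ℕ) : Prop :=
  ∀ p : ι → V × V, ∃ c : V → Fin d, ∀ i, (p i).1 ∈ e i → (p i).2 ∈ e i → (p i).1 ≠ (p i).2 →
    c (p i).1 ≠ c (p i).2

lemma sparse (h : Der e d) (d0 : 1 ≤ d) (W : Finset V) :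
    (univ.filter fun i => d + 1 ≤ (e i ∩ W).card).card ≤ (d + 1) ^ 2 * d * W.card := by
  set J := univ.filter fun i => d + 1 ≤ (e i ∩ W).card
  rcases J.eq_empty_or_nonempty with c | ⟨i0, h0⟩
  · simp [c]
  obtain ⟨v0, -⟩ := card_pos.mp (show 0 < (e i0 ∩ W).card by have := (mem_filter.mp h0).2; omega)
  choose S hS kS using fun i : J => exists_subset_card_eq (mem_filter.mp i.2).2
  let a0 : Fin d := ⟨0, d0⟩
  have cov : Fintype.piFinset (fun i => S i ×ˢ S i) ⊆
      (Fintype.piFinset fun v => if v ∈ W then (univ : Finset (Fin d)) else {a0}).biUnion fun c =>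
        Fintype.piFinset fun i => (S i ×ˢ S i).filter fun o => o.1 ≠ o.2 → c o.1 ≠ c o.2 := fun p hp => by
    obtain ⟨c, hc⟩ := h fun i => if m : i ∈ J then p ⟨i, m⟩ else (v0, v0)
    refine mem_biUnion.mpr ⟨fun v => if v ∈ W then c v else a0, Fintype.mem_piFinset.mpr fun v => by
      split_ifs <;> simp, Fintype.mem_piFinset.mpr fun i => ?_⟩
    have m := Fintype.mem_piFinset.mp hp i
    have := hc i
    have m1 := mem_inter.mp (hS i (mem_product.mp m).1)
    have m2 := mem_inter.mp (hS i (mem_product.mp m).2)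
    simp only [i.2, dite_true] at this
    refine mem_filter.mpr ⟨m, fun n => ?_⟩
    simp only [if_pos m1.2, if_pos m2.2]
    exact this m1.1 m2.1 n
  have b := (card_le_card cov).trans (card_biUnion_le_card_mul _ _ (((d + 1) ^ 2 - 1) ^ J.card)
    fun c _ => by
      rw [Fintype.card_piFinset, ← Fintype.card_coe J]
      refine prod_le_pow_card _ _ _ fun i _ => Nat.le_sub_one_of_lt ?_
      obtain ⟨u, hu, v, hv, n, m⟩ := exists_ne_map_eq_of_card_lt_of_maps_to (s := S i)
        (t := (univ : Finset (Fin d))) (f := c) (by simp [kS]) fun _ _ => mem_univ _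
      refine (card_lt_card (filter_ssubset.mpr ⟨(u, v), mem_product.mpr ⟨hu, hv⟩, ?_⟩)).trans_eq
        (by rw [card_product, kS, sq])
      simp [n, m])
  simp only [Fintype.card_piFinset, card_product, kS, prod_const, card_univ, Fintype.card_coe,
    apply_ite card, card_singleton, Fintype.card_fin, prod_ite_mem, univ_inter, ← sq] at b
  obtain ⟨P, hP⟩ : ∃ P, (d + 1) ^ 2 = P + 1 := ⟨(d + 1) ^ 2 - 1, (Nat.sub_add_cancel (Nat.one_le_pow _ _ d.succ_pos)).symm⟩
  rw [hP] at b ⊢
  rw [Nat.add_sub_cancel] at b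
  have b' : ((P + 1 : ℝ)) ^ J.card ≤ d ^ W.card * P ^ J.card := by exact_mod_cast b
  have e1 : (P : ℝ) ≤ (P + 1) * Real.exp (-1 / (P + 1)) := by
    have := mul_le_mul_of_nonneg_left (Real.add_one_le_exp (-1 / (P + 1 : ℝ)))
      (show (0 : ℝ) ≤ P + 1 by positivity)
    rwa [show (P + 1 : ℝ) * (-1 / (P + 1) + 1) = P by field_simp; ring] at this
  have e2 : (d : ℝ) ≤ Real.exp d := by linarith [Real.add_one_le_exp d]
  have := b'.trans (mul_le_mul (pow_le_pow_left₀ (by positivity) e2 _)
    (pow_le_pow_left₀ (by positivity) e1 _) (by positivity) (by positivity))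
  rw [mul_pow, mul_left_comm, le_mul_iff_one_le_right (by positivity), ← Real.exp_nat_mul,
    ← Real.exp_nat_mul, ← Real.exp_add, Real.one_le_exp_iff] at this
  have : (J.card : ℝ) ≤ (P + 1) * d * W.card := by
    have := mul_nonneg (show (0 : ℝ) ≤ P + 1 by positivity) this
    rw [show (P + 1 : ℝ) * (W.card * d + J.card * (-1 / (P + 1))) = (P + 1) * d * W.card - J.card by
      field_simp
      ring] at this
    linarith
  exact_mod_cast this

omit [Fintype ι] in
lemma coll (t : ℕ) [NeZero t] {u v : V} (n : u ≠ v) :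
    t * ∑ c : V → ZMod t, (if c u = c v then 1 else 0) = ∑ _c : V → ZMod t, 1 := by
  have : ∀ a : ZMod t, ∑ c : V → ZMod t, (if c u = c v then 1 else 0) =
      ∑ c : V → ZMod t, if c u - c v = a then 1 else 0 := fun a =>
    Fintype.sum_equiv (Equiv.addRight (Pi.single u a)) _ _ fun c => by
      simp [Pi.single_apply, n.symm, sub_eq_iff_eq_add, add_comm]
  calc _ = ∑ a : ZMod t, ∑ c : V → ZMod t, if c u - c v = a then 1 else 0 := by
        simp only [← this, sum_const, card_univ, ZMod.card, smul_eq_mul]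
    _ = _ := by
        rw [sum_comm]
        simp

omit [Fintype ι] in
lemma spread (t : ℕ) [NeZero t] {S : Finset V} (hS : S.card = 2 * d * t) :
    (∑ _c : V → ZMod t, 1) * (d * t) ≤ (2 + 4 * d) * ∑ c : V → ZMod t, ∑ a,
      if d + 1 ≤ (S.filter (c · = a)).card then 1 else 0 := by
  set T := ∑ _c : V → ZMod t, 1
  have t0 : 0 < t := Nat.pos_of_ne_zero (NeZero.ne t)
  have a1 : ∀ c : V → ZMod t, (2 + 4 * d) * (2 * d * t) ≤ (2 + 4 * d) ^ 2 * (∑ a,
      if d + 1 ≤ (S.filter (c · = a)).card then 1 else 0) +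
      ∑ u ∈ S, ∑ v ∈ S, if c u = c v then 1 else 0 := fun c => by
    have s1 : ∑ a, (S.filter (c · = a)).card = 2 * d * t := by
      rw [← hS, card_eq_sum_card_fiberwise (f := c) (t := univ) fun _ _ => mem_univ _]
    have s2 : ∑ a, (S.filter (c · = a)).card ^ 2 = ∑ u ∈ S, ∑ v ∈ S, if c u = c v then 1 else 0 := by
      simp only [sq, card_filter, sum_mul_sum]
      rw [sum_comm]
      refine sum_congr rfl fun u _ => ?_
      rw [sum_comm]
      refine sum_congr rfl fun v _ => ?_
      simp [eq_comm]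
    have := sum_le_sum fun a (_ : a ∈ univ) => show 2 * (2 + 4 * d) * (S.filter (c · = a)).card ≤
        (2 + 4 * d) ^ 2 * (if d + 1 ≤ (S.filter (c · = a)).card then 1 else 0) +
        (S.filter (c · = a)).card ^ 2 + 2 * (2 + 4 * d) * d by
      generalize (S.filter (c · = a)).card = x
      split_ifs
      · nlinarith [sq_nonneg ((2 + 4 * d : ℤ) - x)]
      · have := Nat.mul_le_mul_left (2 * (2 + 4 * d)) (show x ≤ d by omega)
        omega
    simp only [sum_add_distrib, ← mul_sum, s1, s2, sum_const, card_univ, ZMod.card, smul_eq_mul] at this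
    nlinarith
  have a2 : ∑ c : V → ZMod t, ∑ u ∈ S, ∑ v ∈ S, (if c u = c v then 1 else 0) ≤
      T * (d * t * (2 + 4 * d)) := by
    refine Nat.le_of_mul_le_mul_left ?_ t0
    rw [sum_comm]
    simp only [sum_comm (s := (univ : Finset (V → ZMod t))), mul_sum]
    refine (sum_le_sum fun u hu => show _ ≤ t * T + 2 * d * t * T from ?_).trans_eq (by
      rw [sum_const, hS, smul_eq_mul]
      ring)
    refine (sum_le_sum fun v _ => show _ ≤ (if u = v then t * T else 0) + T from ?_).trans_eq (by
      simp [sum_add_distrib, hu, hS])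
    rw [← mul_sum]
    split_ifs with n
    · simp [n, T]
    · rw [coll t n, zero_add]
  have := sum_le_sum fun c (_ : c ∈ univ) => a1 c
  rw [sum_add_distrib, sum_const, smul_eq_mul, card_eq_sum_ones, ← mul_sum] at this
  change T * _ ≤ _ at this
  refine Nat.le_of_mul_le_mul_left ?_ (show 0 < 2 + 4 * d by omega)
  nlinarith

lemma scale (h : Der e d) (d0 : 1 ≤ d) (W : Finset V) (t : ℕ) :
    t * (univ.filter fun i => 2 * d * t ≤ (e i ∩ W).card).card ≤
      (2 + 4 * d) * ((d + 1) ^ 2 * d) * W.card := by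
  rcases t.eq_zero_or_pos with rfl | t0
  · simp
  haveI : NeZero t := ⟨t0.ne'⟩
  set J := univ.filter fun i => 2 * d * t ≤ (e i ∩ W).card
  have a : ∀ i ∈ J, (∑ _c : V → ZMod t, 1) * (d * t) ≤ (2 + 4 * d) * ∑ c : V → ZMod t, ∑ a,
      if d + 1 ≤ (e i ∩ W.filter (c · = a)).card then 1 else 0 := fun i hi => by
    obtain ⟨S, h1, h2⟩ := exists_subset_card_eq (mem_filter.mp hi).2
    refine (spread t h2).trans (Nat.mul_le_mul_left _ (sum_le_sum fun c _ => sum_le_sum fun a _ => ?_))
    have : (S.filter (c · = a)).card ≤ (e i ∩ W.filter (c · = a)).card := card_le_card fun x hx => by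
      have := h1 (mem_filter.mp hx).1
      simp_all
    split_ifs <;> omega
  have b : ∀ c : V → ZMod t, ∑ i ∈ J, ∑ a, (if d + 1 ≤ (e i ∩ W.filter (c · = a)).card then 1 else 0) ≤
      (d + 1) ^ 2 * d * W.card := fun c => by
    rw [sum_comm, card_eq_sum_card_fiberwise (s := W) (f := c) (t := univ) fun _ _ => mem_univ _, mul_sum]
    refine sum_le_sum fun a _ => le_trans ?_ (sparse h d0 _)
    rw [card_filter]
    exact sum_le_sum_of_subset (subset_univ _)
  have a' := sum_le_sum a
  have b' := sum_le_sum fun c (_ : c ∈ univ) => b c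
  rw [sum_const, smul_eq_mul, ← mul_sum (s := J), sum_comm (s := J)] at a'
  rw [sum_const, smul_eq_mul, card_eq_sum_ones] at b'
  have T0 : 0 < ∑ _c : V → ZMod t, 1 := sum_pos (fun _ _ => one_pos) univ_nonempty
  generalize ∑ _c : V → ZMod t, 1 = T at *
  refine Nat.le_of_mul_le_mul_left ?_ T0
  have := a'.trans (Nat.mul_le_mul_left _ b')
  have := Nat.mul_le_mul_left (J.card * T * t) d0
  nlinarith

lemma low (h : Der e d) (d0 : 1 ≤ d) (hr : ∀ i, (e i).card ≤ r) {W : Finset V} (n : W.Nonempty) :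
    ∃ v ∈ W, ∑ i with v ∈ e i ∧ 2 * d ≤ (e i ∩ W).card, (e i ∩ W).card ≤
      16 * d ^ 2 * ((2 + 4 * d) * ((d + 1) ^ 2 * d)) * r := by
  refine exists_le_of_sum_le n ?_
  calc _ = ∑ i, if 2 * d ≤ (e i ∩ W).card then (e i ∩ W).card ^ 2 else 0 := by
        simp only [sum_filter]
        rw [sum_comm]
        refine sum_congr rfl fun i _ => ?_
        split_ifs with c
        · simp only [c, and_true, ← sum_filter, filter_mem_eq_inter, sum_const, smul_eq_mul, sq,
            inter_comm W]
        · simp [c]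
    _ ≤ ∑ i, 16 * d ^ 2 * ∑ t ∈ range r, (t + 1) * if 2 * d * (t + 1) ≤ (e i ∩ W).card then 1 else 0 := by
        refine sum_le_sum fun i _ => ?_
        have sr := (card_le_card (inter_subset_left (s₁ := e i) (s₂ := W))).trans (hr i)
        generalize (e i ∩ W).card = s at *
        split_ifs with c
        · have u1 : 1 ≤ s / (2 * d) := (Nat.le_div_iff_mul_le (by omega)).mpr (by omega)
          have u2 := Nat.lt_mul_div_succ s (show 0 < 2 * d by omega)
          have u3 := Nat.mul_div_le s (2 * d)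
          have u4 := Nat.div_le_self s (2 * d)
          generalize s / (2 * d) = u at *
          have g : ∑ t ∈ range u, (t + 1) ≤
              ∑ t ∈ range r, (t + 1) * if 2 * d * (t + 1) ≤ s then 1 else 0 :=
            le_trans (sum_le_sum fun t ht => by
              rw [if_pos ((Nat.mul_le_mul_left _ (mem_range.mp ht)).trans u3), mul_one])
              (sum_le_sum_of_subset (range_subset_range.mpr (by omega)))
          have g2 : 2 * ∑ t ∈ range u, (t + 1) = u * (u + 1) := by
            clear * -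
            induction u with
            | zero => simp
            | succ u ih =>
              rw [sum_range_succ, mul_add, ih]
              ring
          have := Nat.pow_le_pow_left u2.le 2
          have := Nat.mul_le_mul_left (d ^ 2 * (u + 1)) u1
          have := Nat.mul_le_mul_left (16 * d ^ 2) g
          nlinarith
        · exact Nat.zero_le _
    _ ≤ _ := by
        rw [← mul_sum, sum_comm, sum_const, smul_eq_mul]
        simp only [← mul_sum, ← card_filter]
        have := sum_le_sum fun t (_ : t ∈ range r) => scale h d0 W (t + 1)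
        rw [sum_const, card_range, smul_eq_mul] at this
        exact (Nat.mul_le_mul_left _ this).trans_eq (by ring)

lemma greedy {K : ℕ} (h : ∀ W : Finset V, W.Nonempty →
    ∃ v ∈ W, ∑ i with v ∈ e i ∧ 2 * d ≤ (e i ∩ W).card, (e i ∩ W).card ≤ K) (W : Finset V) :
    ∃ (c : V → Fin (K + 1)) (f : ι → Finset V), (∀ i, f i ⊆ e i ∧ (f i).card ≤ 2 * d) ∧
      ∀ i, ∀ u ∈ e i ∩ W, ∀ v ∈ e i ∩ W, u ≠ v → c u = c v → u ∈ f i ∧ v ∈ f i := by
  induction W using Finset.strongInduction with
  | H W ih =>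
    rcases W.eq_empty_or_nonempty with rfl | n
    · exact ⟨fun _ => 0, fun _ => ∅, by simp, by simp⟩
    obtain ⟨v, hv, l⟩ := h W n
    obtain ⟨c, f, h1, h2⟩ := ih _ (erase_ssubset hv)
    obtain ⟨a, -, ha⟩ := exists_mem_notMem_of_card_lt_card (t := univ)
      (s := ((univ.filter fun i => v ∈ e i ∧ 2 * d ≤ (e i ∩ W).card).biUnion fun i => e i ∩ W).image c)
      ((card_image_le.trans (card_biUnion_le.trans l)).trans_lt (by simp))
    refine ⟨Function.update c v a, fun i => if 2 * d ≤ (e i ∩ W).card then f i else e i ∩ W,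
      fun i => ?_, fun i x hx y hy n m => ?_⟩
    · beta_reduce
      split_ifs
      · exact h1 i
      · exact ⟨inter_subset_left, by omega⟩
    beta_reduce
    split_ifs with b
    · have k : ∀ z ∈ e i ∩ W, v ∈ e i → c z ≠ a := fun z hz m e' =>
        ha (mem_image.mpr ⟨z, mem_biUnion.mpr ⟨i, by simp [m, b], hz⟩, e'⟩)
      have := h2 i x
      simp only [mem_inter, mem_erase, Function.update_apply] at *
      grind
    · exact ⟨hx, hy⟩

lemma main (h : Der e d) (v0 : V) (hr : ∀ i, (e i).card ≤ r) :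
    ∃ c : V → Fin (16 * d ^ 2 * ((2 + 4 * d) * ((d + 1) ^ 2 * d)) * r + 1) ×
      (Fin (2 * d) × Fin (2 * d) → Fin d), ∀ i, Set.InjOn c (e i) := by
  have d0 : 1 ≤ d := ((h fun _ => (v0, v0)).choose v0).pos
  obtain ⟨c, f, h1, h2⟩ := greedy (fun W => low h d0 hr) univ
  choose g hg using fun p : Fin (2 * d) × Fin (2 * d) =>
    h fun i => ((f i).toList.getD p.1 v0, (f i).toList.getD p.2 v0)
  refine ⟨fun v => (c v, fun p => g p v), fun i u hu v hv m => ?_⟩
  by_contra n
  obtain ⟨m1, m2⟩ := Prod.ext_iff.mp m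
  obtain ⟨a, b⟩ := h2 i u (by simpa using hu) v (by simpa using hv) n m1
  have k : ∀ x ∈ f i, ∃ a : Fin (2 * d), (f i).toList.getD a v0 = x := fun x hx => by
    obtain ⟨j, hj, e⟩ := List.getElem_of_mem (mem_toList.mpr hx)
    exact ⟨⟨j, by have := (h1 i).2; rw [length_toList] at hj; omega⟩, by
      rw [List.getD_eq_getElem _ _ hj, e]⟩
  obtain ⟨x, rfl⟩ := k u a
  obtain ⟨y, rfl⟩ := k v b
  exact hg (x, y) i hu hv n (congrFun m2 (x, y))

end Pool.Agent.H.MP_96d021_co
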